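import Pool.Agent.H32.Compactible

set_option autoImplicit false

namespace Pool.Agent.Results.MP_a8ef43_co.Disjoint

open Pool.Agent.H32.Compactible

universe u

/-- For a compactible relation, the complement of every interval is a union of finitely many
pairwise disjoint intervals. -/
theorem result (E : Type u) (n : ℕ) (A : Set (Fin n → E)) (hA : IsCompactible A)
    (D : Set E) (hD : IsInterval A D) :
    ∃ G : Set (Set E), G.Finite ∧ (∀ U ∈ G, IsInterval A U) ∧ G.PairwiseDisjoint id ∧
      ⋃₀ G = Dᶜ := by
  obtain ⟨F, h1, h2, h3⟩ := hA D hD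
  rw [← h3]
  refine good hA (Nat.card (((Fin n → Fin n) → Prop) × (Fin n → Fin n → Prop)) + 1) F h1 h2 ?_
  intro U _
  exact Nat.lt_succ_of_le (Set.ncard_le_card _)

end Pool.Agent.Results.MP_a8ef43_co.Disjoint
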